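import Pool.Agent.H516.PCF.All

/-! Critical multiplicities: proof of `S_MULT` (subtask 5596, for helper516, MP_392fd3_nt). -/

namespace Pool.Agent.H809.PCF

open Polynomial Pool.Agent.H516.PCF

theorem mult : Pool.Agent.H516.PCF.S_MULT := by
  intro k _ _ U V hUV hV hw x hx
  have hroot : IsRoot V x := hx
  have hμ : 0 < rootMultiplicity x V := (rootMultiplicity_pos hV).2 hroot
  have hder : rootMultiplicity x (derivative V) = rootMultiplicity x V - 1 :=
    derivative_rootMultiplicity_of_root hroot
  have hder0 : derivative V ≠ 0 := by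
    intro h
    have hdeg : V.natDegree = 0 := derivative_eq_zero.1 h
    rw [eq_C_of_natDegree_eq_zero hdeg] at hx hV
    rw [eval_C] at hx
    exact hV (by rw [hx, C_0])
  have hcop : IsCoprime ((X - C x) ^ rootMultiplicity x V) U := by
    apply IsCoprime.of_isCoprime_of_dvd_left hUV.symm
    exact pow_rootMultiplicity_dvd V x
  have hV2 : rootMultiplicity x (V ^ 2) = 2 * rootMultiplicity x V := by
    rw [sq, rootMultiplicity_mul (mul_ne_zero hV hV)]; ring
  rw [hV2]
  by_contra hcon
  have hle : rootMultiplicity x V ≤ rootMultiplicity x (wr U V) := by omega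
  have h1 : (X - C x) ^ rootMultiplicity x V ∣ wr U V :=
    (le_rootMultiplicity_iff hw).1 hle
  have h2 : (X - C x) ^ rootMultiplicity x V ∣ derivative U * V :=
    Dvd.dvd.mul_left (pow_rootMultiplicity_dvd V x) _
  have h3 : (X - C x) ^ rootMultiplicity x V ∣ U * derivative V := by
    have : U * derivative V = derivative U * V - wr U V := by
      unfold wr; ring
    rw [this]
    exact dvd_sub h2 h1
  have h4 : (X - C x) ^ rootMultiplicity x V ∣ derivative V := hcop.dvd_of_dvd_mul_left h3
  have h5 := (le_rootMultiplicity_iff hder0).2 h4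
  omega

end Pool.Agent.H809.PCF
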